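import Mathlib

/-!
# MP_9e990c_al : descent (helper32), interface agreed with helper17

`D'` a division ring, `s` an involution of `D'` which moves some central element `η`.
The fixed ring `D` of `s` is a division ring, its centre consists of the central elements of `D'`
fixed by `s`, and `dim D` over its centre is `dim D'` over its centre.
-/

namespace Pool.Agent.H.MP_9e990c_al.Desc2

variable {D' : Type} [DivisionRing D']

/-- the fixed division ring -/
def fixed (s : D' ≃+* D') : Subfield D' where
  carrier := {x | s x = x}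
  mul_mem' := by
    intro a b ha hb
    change s (a * b) = a * b
    change s a = a at ha
    change s b = b at hb
    rw [map_mul, ha, hb]
  one_mem' := by
    change s 1 = 1
    simp
  add_mem' := by
    intro a b ha hb
    change s (a + b) = a + b
    change s a = a at ha
    change s b = b at hb
    rw [map_add, ha, hb]
  zero_mem' := by
    change s 0 = 0
    simp
  neg_mem' := by
    intro a ha
    change s (-a) = -a
    change s a = a at ha
    rw [map_neg, ha]
  inv_mem' := by
    intro a ha
    change s (a⁻¹) = a⁻¹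
    change s a = a at ha
    rw [map_inv₀, ha]

theorem mem_fixed (s : D' ≃+* D') (x : D') : x ∈ fixed s ↔ s x = x := Iff.rfl

/-- `s` is an involution, `η` a central element moved by `s` -/
structure Inv (s : D' ≃+* D') (η : D') : Prop where
  hs : ∀ x, s (s x) = x
  hη : ∀ x, η * x = x * η
  hsη : s η ≠ η

namespace Inv

variable {s : D' ≃+* D'} {η : D'} (I : Inv s η)

include I

theorem ne0 : η - s η ≠ 0 := fun h => I.hsη (sub_eq_zero.1 h).symm

omit I in
/-- decomposition `D' = D + η D` -/
noncomputable def bcomp (I : Inv s η) (x : D') : fixed s :=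
  ⟨(η - s η)⁻¹ * (x - s x), by
    rw [mem_fixed, map_mul, map_inv₀, map_sub, map_sub, I.hs, I.hs]
    have h1 : s η - η = -(η - s η) := by abel
    have h2 : s x - x = -(x - s x) := by abel
    rw [h1, h2, inv_neg, neg_mul_neg]⟩

theorem coe_bcomp (x : D') :
    (I.bcomp x : D') = (η - s η)⁻¹ * (x - s x) := rfl

omit I in
/-- decomposition `D' = D + η D` -/
noncomputable def acomp (I : Inv s η) (x : D') : fixed s :=
  ⟨x - η * I.bcomp x, by
    have hb : s (I.bcomp x : D') = I.bcomp x := (I.bcomp x).2
    rw [mem_fixed, map_sub, map_mul, hb]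
    have h1 : (η - s η) * (I.bcomp x : D') = x - s x := by
      rw [coe_bcomp, mul_inv_cancel_left₀ I.ne0]
    rw [sub_mul] at h1
    have h2 : s x = x - (η * (I.bcomp x : D') - s η * (I.bcomp x : D')) := by
      rw [h1]; abel
    rw [h2]; abel⟩

theorem coe_acomp (x : D') :
    (I.acomp x : D') = x - η * (I.bcomp x : D') := rfl

theorem decomp (x : D') :
    x = (I.acomp x : D') + η * (I.bcomp x : D') := by
  rw [coe_acomp]; abel

theorem uniq (a b : fixed s) (h : (a : D') + η * (b : D') = 0) : a = 0 ∧ b = 0 := by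
  have ha : s (a : D') = a := a.2
  have hb : s (b : D') = b := b.2
  have h1 := congrArg s h
  rw [map_add, map_mul, ha, hb, map_zero] at h1
  have h2 : (η - s η) * (b : D') = 0 := by
    have : (η - s η) * (b : D') = ((a : D') + η * (b : D')) - ((a : D') + s η * (b : D')) := by
      rw [sub_mul]; abel
    rw [this, h, h1, sub_zero]
  have hb0 : (b : D') = 0 := (mul_eq_zero.1 h2).resolve_left I.ne0
  have ha0 : (a : D') = 0 := by
    rw [hb0, mul_zero, add_zero] at h
    exact h
  exact ⟨Subtype.ext ha0, Subtype.ext hb0⟩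

theorem uniq' (a b a' b' : fixed s)
    (h : (a : D') + η * (b : D') = (a' : D') + η * (b' : D')) : a = a' ∧ b = b' := by
  have := I.uniq (a - a') (b - b') (by
    rw [Subfield.coe_sub, Subfield.coe_sub, mul_sub]
    have : (a : D') - a' + (η * (b : D') - η * (b' : D')) =
        ((a : D') + η * (b : D')) - ((a' : D') + η * (b' : D')) := by abel
    rw [this, h, sub_self])
  exact ⟨sub_eq_zero.1 this.1, sub_eq_zero.1 this.2⟩

/-- an element of `D` central in `D` is central in `D'` -/
theorem central_up (x : fixed s) (hx : ∀ y : fixed s, x * y = y * x) (y : D') :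
    (x : D') * y = y * x := by
  rw [I.decomp y]
  have h1 := congrArg (fun z : fixed s => (z : D')) (hx (I.acomp y))
  have h2 := congrArg (fun z : fixed s => (z : D')) (hx (I.bcomp y))
  simp only [Subfield.coe_mul] at h1 h2
  rw [mul_add, add_mul, h1, mul_assoc, ← h2, ← mul_assoc, ← mul_assoc, I.hη]

theorem mem_center_iff (x : fixed s) :
    x ∈ Subring.center (fixed s) ↔ (x : D') ∈ Subring.center D' := by
  rw [Subring.mem_center_iff, Subring.mem_center_iff]
  constructor
  · intro h y
    exact (I.central_up x (fun y => (h y).symm) y).symm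
  · intro h y
    apply Subtype.ext
    exact h y

omit I in
/-- the centre of `D` -/
abbrev Z (s : D' ≃+* D') : Type := ↥(Subring.center ↥(fixed s))

omit I in
/-- the centre of `D'` -/
abbrev Z' (D' : Type) [DivisionRing D'] : Type := ↥(Subring.center D')

omit I in
/-- centre of `D` to centre of `D'` -/
def φ (I : Inv s η) : Z s →+* Z' D' where
  toFun c := ⟨((c : fixed s) : D'), (I.mem_center_iff (c : fixed s)).1 c.2⟩
  map_one' := rfl
  map_mul' _ _ := rfl
  map_zero' := rfl
  map_add' _ _ := rfl

theorem coe_φ (c : Z s) : ((I.φ c : Z' D') : D') = ((c : fixed s) : D') := rfl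

omit I in
/-- the centre of `D` acts on `D'` -/
@[reducible] noncomputable def modD' (I : Inv s η) : Module (Z s) D' :=
  Module.compHom D' I.φ

omit I in
/-- the centre of `D` acts on the centre of `D'` -/
@[reducible] noncomputable def modZ' (I : Inv s η) : Module (Z s) (Z' D') :=
  Module.compHom (Z' D') I.φ

theorem η_mem : η ∈ Subring.center D' := by
  rw [Subring.mem_center_iff]
  intro y
  exact (I.hη y).symm

theorem s_mem (x : D') (hx : x ∈ Subring.center D') : s x ∈ Subring.center D' := by
  rw [Subring.mem_center_iff] at hx ⊢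
  intro y
  have := congrArg s (hx (s y))
  rw [map_mul, map_mul, I.hs] at this
  exact this

theorem bcomp_mem (x : D') (hx : x ∈ Subring.center D') :
    I.bcomp x ∈ Subring.center ↥(fixed s) := by
  rw [I.mem_center_iff, coe_bcomp]
  have h1 : η - s η ∈ Subring.center D' := sub_mem I.η_mem (I.s_mem _ I.η_mem)
  have h2 : x - s x ∈ Subring.center D' := sub_mem hx (I.s_mem _ hx)
  refine mul_mem ?_ h2
  rw [Subring.mem_center_iff] at h1 ⊢
  intro y
  have h3 : η - s η ≠ 0 := I.ne0
  have h4 := h1 y
  calc y * (η - s η)⁻¹ = (η - s η)⁻¹ * ((η - s η) * y) * (η - s η)⁻¹ := by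
        rw [inv_mul_cancel_left₀ h3]
    _ = (η - s η)⁻¹ * (y * (η - s η)) * (η - s η)⁻¹ := by rw [h4]
    _ = (η - s η)⁻¹ * y := by rw [mul_assoc, mul_assoc, mul_inv_cancel₀ h3, mul_one]

theorem acomp_mem (x : D') (hx : x ∈ Subring.center D') :
    I.acomp x ∈ Subring.center ↥(fixed s) := by
  rw [I.mem_center_iff, coe_acomp]
  refine sub_mem hx (mul_mem I.η_mem ?_)
  exact (I.mem_center_iff _).1 (I.bcomp_mem x hx)

omit I in
/-- `D' ≃ D × D` over the centre of `D` -/
noncomputable def equivD (I : Inv s η) :
    letI := I.modD'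
    D' ≃ₗ[Z s] (↥(fixed s) × ↥(fixed s)) :=
  letI := I.modD'
  LinearEquiv.symm
  { toFun := fun p => (p.1 : D') + η * (p.2 : D')
    map_add' := by
      intro p q
      simp only [Prod.fst_add, Prod.snd_add, Subfield.coe_add, mul_add]
      abel
    map_smul' := by
      intro c p
      have h1 : ((c • p.1 : ↥(fixed s)) : D') = ((c : fixed s) : D') * (p.1 : D') := rfl
      have h2 : ((c • p.2 : ↥(fixed s)) : D') = ((c : fixed s) : D') * (p.2 : D') := rfl
      have h3 : ∀ x : D', c • x = ((c : fixed s) : D') * x := fun x => rfl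
      simp only [Prod.smul_fst, Prod.smul_snd, h1, h2, RingHom.id_apply, h3, mul_add]
      rw [← mul_assoc, ← mul_assoc, I.hη]
    invFun := fun x => (I.acomp x, I.bcomp x)
    left_inv := by
      intro p
      have h1 := I.decomp ((p.1 : D') + η * (p.2 : D'))
      obtain ⟨h2, h3⟩ := I.uniq' _ _ _ _ h1
      exact Prod.ext h2.symm h3.symm
    right_inv := by
      intro x
      exact (I.decomp x).symm }

omit I in
/-- `Z(D') ≃ Z(D) × Z(D)` over the centre of `D` -/
noncomputable def equivZ (I : Inv s η) :
    letI := I.modZ'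
    Z' D' ≃ₗ[Z s] (Z s × Z s) :=
  letI := I.modZ'
  LinearEquiv.symm
  { toFun := fun p => I.φ p.1 + ⟨η, I.η_mem⟩ * I.φ p.2
    map_add' := by
      intro p q
      simp only [Prod.fst_add, Prod.snd_add, map_add, mul_add]
      abel
    map_smul' := by
      intro c p
      have h3 : ∀ x : Z' D', c • x = I.φ c * x := fun x => rfl
      simp only [Prod.smul_fst, Prod.smul_snd, smul_eq_mul, map_mul, RingHom.id_apply, h3]
      ring
    invFun := fun x => (⟨I.acomp x, I.acomp_mem x x.2⟩, ⟨I.bcomp x, I.bcomp_mem x x.2⟩)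
    left_inv := by
      intro p
      have h1 := I.decomp (((p.1 : fixed s) : D') + η * ((p.2 : fixed s) : D'))
      obtain ⟨h2, h3⟩ := I.uniq' _ _ _ _ h1
      refine Prod.ext (Subtype.ext h2.symm) (Subtype.ext h3.symm)
    right_inv := by
      intro x
      apply Subtype.ext
      exact (I.decomp x).symm }

theorem finrank_eq [hf : Module.Finite (Z' D') D'] :
    Module.finrank (Z s) ↥(fixed s) = Module.finrank (Z' D') D' ∧
      Module.Finite (Z s) ↥(fixed s) := by
  let m1 := I.modD'
  let m2 := I.modZ'
  have : IsScalarTower (Z s) (Z' D') D' := ⟨by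
    intro a b c
    have h1 : (a • b : Z' D') • c = ((((a : fixed s) : D') * (b : D')) * c) := rfl
    have h2 : a • (b • c) = ((a : fixed s) : D') * ((b : D') * c) := rfl
    rw [h1, h2, mul_assoc]⟩
  have e1 := I.equivD
  have e2 := I.equivZ
  have f2 : Module.Finite (Z s) (Z' D') := Module.Finite.equiv e2.symm
  have f3 : Module.Finite (Z s) D' := Module.Finite.trans (Z' D') D'
  have f4 : Module.Finite (Z s) (↥(fixed s) × ↥(fixed s)) := Module.Finite.equiv e1
  have f5 : Module.Finite (Z s) ↥(fixed s) :=
    Module.Finite.of_surjective (LinearMap.fst (Z s) ↥(fixed s) ↥(fixed s))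
      (LinearMap.fst_surjective)
  have h1 : Module.finrank (Z s) D' = 2 * Module.finrank (Z s) ↥(fixed s) := by
    rw [e1.finrank_eq, Module.finrank_prod, two_mul]
  have h2 : Module.finrank (Z s) (Z' D') = 2 := by
    rw [e2.finrank_eq, Module.finrank_prod, Module.finrank_self]
  have h3 := Module.finrank_mul_finrank (Z s) (Z' D') D'
  rw [h1, h2] at h3
  exact ⟨by omega, f5⟩

/-- the final statement, from the properties of `D'` -/
theorem final [hf : Module.Finite (Z' D') D'] {n p : ℕ}
    (hfin : Module.finrank (Z' D') D' = n) (ζ : D') (hζ0 : ζ ^ p = 1)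
    (hζ1 : ∀ l : ℕ, ζ ^ l = 1 → p ∣ l)
    (hζ2 : ζ ∈ Subring.center D') (hζ3 : s ζ = ζ)
    (main : ∀ z : D', s z = z → z ^ p ∈ Subring.center D' → z ∈ Subring.center D') :
    ∃ (F : Type) (_ : Field F) (D : Type) (_ : DivisionRing D) (_ : Algebra F D),
      (∃ ζ : F, IsPrimitiveRoot ζ p) ∧ Algebra.IsCentral F D ∧ Module.finrank F D = n ∧
      ∀ x : D, x ^ p ∈ (algebraMap F D).range → x ∈ (algebraMap F D).range := by
  refine ⟨Z s, inferInstance, ↥(fixed s), inferInstance, inferInstance, ?_, ?_, ?_, ?_⟩
  · have hm : (⟨ζ, hζ3⟩ : fixed s) ∈ Subring.center ↥(fixed s) :=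
      (I.mem_center_iff _).2 hζ2
    refine ⟨⟨⟨ζ, hζ3⟩, hm⟩, ⟨?_, ?_⟩⟩
    · apply Subtype.ext
      apply Subtype.ext
      exact hζ0
    · intro l hl
      apply hζ1 l
      exact congrArg (fun z : Z s => ((z : fixed s) : D')) hl
  · refine ⟨?_⟩
    intro x hx
    rw [Subalgebra.mem_center_iff] at hx
    rw [Algebra.mem_bot]
    exact ⟨⟨x, Subring.mem_center_iff.2 hx⟩, rfl⟩
  · rw [I.finrank_eq.1, hfin]
  · rintro x ⟨c, hc⟩
    have h1 : (x : D') ^ p ∈ Subring.center D' := by
      have h2 := (I.mem_center_iff (c : fixed s)).1 c.2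
      have h3 : ((c : fixed s) : D') = (x : D') ^ p := congrArg (fun z : fixed s => (z : D')) hc
      rw [← h3]
      exact h2
    have h4 := main x x.2 h1
    exact ⟨⟨x, (I.mem_center_iff x).2 h4⟩, rfl⟩

end Inv

end Pool.Agent.H.MP_9e990c_al.Desc2
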